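import Pool.Agent.H.MP_bae362_pr.A

set_option autoImplicit false
open MeasureTheory Finset
open scoped Classical ENNReal NNReal

namespace Pool.Agent.Results.MP_bae362_pr.Infinite

universe u v

/-- `v` is `n`-alternating on the Borel sets. -/
def Alternating {E : Type u} [MeasurableSpace E] (n : ℕ) (v : Set E → ℝ) : Prop :=
  ∀ A : Fin n → Set E, (∀ i, MeasurableSet (A i)) →
    v (⋂ i, A i) ≤ ∑ I : Finset (Fin n) with I.Nonempty, (-1) ^ (#I + 1) * v (⋃ i ∈ I, A i)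

variable {E : Type u} {Ω : Type v} [MeasurableSpace Ω]

/-- `s A = E sup_{x ∈ X ∩ A} L x`. -/
noncomputable def s (P : Measure Ω) (X : Ω → Set E) (L : E → ℝ≥0) (A : Set E) : ℝ≥0∞ :=
  ∫⁻ ω, ⨆ x ∈ X ω ∩ A, (L x : ℝ≥0∞) ∂P

/-- `t A = E [inf_{x ∈ X} L x ; X ∩ A = ∅]`. -/
noncomputable def t (P : Measure Ω) (X : Ω → Set E) (L : E → ℝ≥0) (A : Set E) : ℝ≥0∞ :=
  ∫⁻ ω, if X ω ∩ A = ∅ then ⨅ x ∈ X ω, (L x : ℝ≥0∞) else 0 ∂P

open Pool.Agent.H.MP_bae362_pr in
theorem result [TopologicalSpace E] [LocallyCompactSpace E] [SecondCountableTopology E] [T2Space E]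
    [MeasurableSpace E] [BorelSpace E] (L : E → ℝ≥0) (hL : Measurable L) (n : ℕ) (hn : 2 ≤ n) :
    (∀ (P : Measure Ω) [IsProbabilityMeasure P] (X : Ω → Set E), (∀ ω, IsClosed (X ω)) →
      (∀ K, IsCompact K → MeasurableSet {ω | (X ω ∩ K).Nonempty}) → (∀ᵐ ω ∂P, (X ω).Nonempty) →
      s P X L Set.univ ≠ ∞ → Alternating n fun A =>
        (s P X L A).toReal / ((s P X L A).toReal + (t P X L A).toReal)) ∧
    ∀ (ε : ℝ), 0 < ε → ε < 1 → ∀ (P : Measure E) [IsProbabilityMeasure P],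
      BddAbove (Set.range L) → Alternating n fun A =>
        ((1 - ε) * ∫ x in A, (L x : ℝ) ∂P + ε * (⨆ x ∈ A, (L x : ℝ≥0∞)).toReal) /
          ((1 - ε) * ∫ x, (L x : ℝ) ∂P + ε * (⨆ x ∈ A, (L x : ℝ≥0∞)).toReal) := by
  have mx : ∀ (Y A B : Set E), ⨆ x ∈ Y ∩ (A ∪ B), (L x : ℝ≥0∞) =
      max (⨆ x ∈ Y ∩ A, (L x : ℝ≥0∞)) (⨆ x ∈ Y ∩ B, (L x : ℝ≥0∞)) := fun Y A B => by
    rw [Set.inter_union_distrib_left, _root_.iSup_union]
  have le : ∀ (Y A : Set E), ⨆ x ∈ Y ∩ A, (L x : ℝ≥0∞) ≤ ⨆ x ∈ Y ∩ Set.univ, (L x : ℝ≥0∞) :=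
    fun Y A => biSup_mono fun x h => ⟨h.1, trivial⟩
  refine ⟨fun P _ X hc hX hne hs A hA => ?_, fun ε e0 e1 P _ ⟨C, hC⟩ A hA => ?_⟩
  · have m1 : ∀ A, MeasurableSet A → AEMeasurable (fun ω => ⨆ x ∈ X ω ∩ A, (L x : ℝ≥0∞)) P :=
      fun A a => NullMeasurable.aemeasurable (@measurable_of_Ioi _ (NullMeasurableSpace Ω P) _ _ _ _
        _ _ _ _ fun c => by
          have := hit P hc hX (a.inter (hL.coe_nnreal_ennreal (measurableSet_Ioi (a := c))))
          refine (congrArg (NullMeasurableSet · P) (Set.ext fun ω => ?_)).mp this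
          change _ ↔ c < ⨆ x ∈ X ω ∩ A, (L x : ℝ≥0∞)
          simp [lt_iSup_iff, Set.Nonempty, and_assoc])
    have m2 : ∀ A, MeasurableSet A → AEMeasurable (fun ω => if X ω ∩ A = ∅ then
        ⨅ x ∈ X ω, (L x : ℝ≥0∞) else 0) P := fun A a => NullMeasurable.aemeasurable
      (@Measurable.ite (NullMeasurableSpace Ω P) _ _ _ _ _ _ _ (by
        have := (hit P hc hX a).compl
        rwa [Set.compl_setOf, funext fun ω => propext Set.not_nonempty_iff_eq_empty] at this)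
        (@measurable_of_Iio _ (NullMeasurableSpace Ω P) _ _ _ _ _ _ _ _ fun c => by
          have := hit P hc hX (hL.coe_nnreal_ennreal (measurableSet_Iio (a := c)))
          refine (congrArg (NullMeasurableSet · P) (Set.ext fun ω => ?_)).mp this
          change _ ↔ ⨅ x ∈ X ω, (L x : ℝ≥0∞) < c
          simp [iInf_lt_iff, Set.Nonempty]) measurable_const)
    have l2 : ∀ A, ∀ᵐ ω ∂P, (if X ω ∩ A = ∅ then ⨅ x ∈ X ω, (L x : ℝ≥0∞) else 0) ≤
        ⨆ x ∈ X ω ∩ Set.univ, (L x : ℝ≥0∞) := fun A => hne.mono fun ω ⟨x, h⟩ => by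
      split_ifs
      · exact (iInf₂_le x h).trans (le_iSup₂_of_le x ⟨h, trivial⟩ le_rfl)
      · exact zero_le
    have f1 : ∀ A, s P X L A ≠ ∞ := fun A => ne_top_of_le_ne_top hs (lintegral_mono fun ω => le _ A)
    have f2 : ∀ A, t P X L A ≠ ∞ := fun A => ne_top_of_le_ne_top hs (lintegral_mono_ae (l2 A))
    have i1 := fun A a => integrable_toReal_of_lintegral_ne_top (m1 A a) (f1 A)
    have i2 := fun A a => integrable_toReal_of_lintegral_ne_top (m2 A a) (f2 A)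
    have e1 := fun A a => integral_toReal (m1 A a) (ae_lt_top' (m1 A a) (f1 A))
    have e2 := fun A a => integral_toReal (m2 A a) (ae_lt_top' (m2 A a) (f2 A))
    refine main (s := fun A => (s P X L A).toReal) (t := fun A => (t P X L A).toReal)
      (K := (s P X L Set.univ).toReal) ((CM.int i2 (.of_forall fun ω => ⟨fun A => by positivity,
        fun A B => ?_⟩)).cg e2) ((CM.int (fun A a => (i1 _ .univ).sub ((i1 A a).add (i2 A a)))
          ?_).cg fun A a => ?_) (fun A => by positivity) (by omega) A hA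
    · simp only [Set.inter_union_distrib_left, Set.union_empty_iff]
      by_cases h : X ω ∩ A = ∅ <;> by_cases k : X ω ∩ B = ∅ <;> simp [h, k]
    · filter_upwards [ae_lt_top' (m1 _ .univ) hs, l2 ∅] with ω h1 h2
      rw [if_pos (Set.inter_empty _)] at h2
      have fin := fun A => ((le (X ω) A).trans_lt h1).ne
      have e : ∀ A, (⨆ x ∈ X ω ∩ A, (L x : ℝ≥0∞)).toReal + (if X ω ∩ A = ∅ then
          ⨅ x ∈ X ω, (L x : ℝ≥0∞) else 0).toReal = max (⨆ x ∈ X ω ∩ A, (L x : ℝ≥0∞)).toReal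
            (⨅ x ∈ X ω, (L x : ℝ≥0∞)).toReal := fun A => by
        split_ifs with h
        · simp [h]
        · obtain ⟨x, h⟩ := Set.nonempty_iff_ne_empty.2 h
          rw [max_eq_left (ENNReal.toReal_mono (fin A) ((iInf₂_le x h.1).trans
            (le_iSup₂_of_le x h le_rfl)))]; simp
      simp only [Pi.sub_apply, Pi.add_apply, e]
      exact ⟨fun A => sub_nonneg.2 (max_le (ENNReal.toReal_mono h1.ne (le _ A))
        (ENNReal.toReal_mono h1.ne h2)), fun A B => by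
          rw [min_sub_sub_left, mx, ENNReal.toReal_max (fin _) (fin _), sup_sup_distrib_right]⟩
    · rw [s, s, t, ← e1 _ .univ, ← e1 A a, ← e2 A a, ← integral_add (i1 A a) (i2 A a)]
      exact integral_sub (i1 _ .univ) ((i1 A a).add (i2 A a))
  · have i : Integrable (fun x => (L x : ℝ)) P := .of_bound hL.coe_nnreal_real.aestronglyMeasurable C
      (.of_forall fun x => by simpa using hC ⟨x, rfl⟩)
    have fin : ∀ A : Set E, ⨆ x ∈ A, (L x : ℝ≥0∞) ≠ ∞ := fun A => ne_top_of_le_ne_top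
      ENNReal.coe_ne_top (iSup₂_le fun x _ => ENNReal.coe_le_coe.2 (hC ⟨x, rfl⟩))
    have e2 : 0 ≤ 1 - ε := by linarith
    have e : ∀ A, MeasurableSet A → ∫ x, Aᶜ.indicator (fun x => (L x : ℝ)) x ∂P =
        ∫ x, (L x : ℝ) ∂P - ∫ x in A, (L x : ℝ) ∂P := fun A a => by
      rw [integral_indicator a.compl, setIntegral_compl a i]
    have := main (s := fun A => (1 - ε) * ∫ x in A, (L x : ℝ) ∂P +
      ε * (⨆ x ∈ A, (L x : ℝ≥0∞)).toReal) (t := fun A => (1 - ε) * (∫ x, (L x : ℝ) ∂P -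
        ∫ x in A, (L x : ℝ) ∂P)) (K := (1 - ε) * ∫ x, (L x : ℝ) ∂P +
          ε * (⨆ x ∈ Set.univ, (L x : ℝ≥0∞)).toReal) ((CM.const e2).mul ((CM.int (fun A a =>
            i.indicator a.compl) (.of_forall fun x => ⟨fun A => Set.indicator_nonneg (by simp) _,
              fun A B => by by_cases h : x ∈ A <;> by_cases k : x ∈ B <;> simp [h, k]⟩)).cg e))
      (((CM.const e0.le).mul (v := fun A => (⨆ x ∈ Set.univ, (L x : ℝ≥0∞)).toReal -
        (⨆ x ∈ A, (L x : ℝ≥0∞)).toReal) fun l _ A _ => D_min l (fun A => sub_nonneg.2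
          (ENNReal.toReal_mono (fin _) (biSup_mono fun _ _ => trivial))) (fun A B => by
            rw [_root_.iSup_union, min_sub_sub_left, ENNReal.toReal_max (fin _) (fin _)]) A).cg
              fun A _ => by ring) (fun A => by positivity) (by omega) A hA
    simpa only [mul_sub (1 - ε), add_right_comm _ (ε * _), add_sub_cancel] using this

end Pool.Agent.Results.MP_bae362_pr.Infinite
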